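import Pool.Agent.Helper66.LF.Thm

set_option autoImplicit false

/-!
# The parts of the conjecture of Birch and Swinnerton-Dyer as limits

`primeSide W t = P(t)` is a product over the prime powers, `pointSide W t = T(t)` the theta series of
the canonical height on `E(ℚ)`, and `ratio W n` is `#Sel_{n!} / #(E(ℚ) / n! E(ℚ)) · P(n) / T(n) ^ 2`.
The rank of `E(ℚ)` is the order `m` of `L(E, s)` at `1` if and only if `P(t) / T(t) ^ 2` has a nonzero
limit; the rank is `m` and the group of Tate and Shafarevich is finite if and only if `ratio W n` has a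
nonzero limit; the strong conjecture (i), (ii), (iii) holds if and only if `Ω C · ratio W n → 1`.

All definitions are in this file; `result` is the theorem `Pool.Agent.Helper66.LF.main`.
-/

open Filter Topology

namespace Pool.Agent.Results.MP_4a9ea6_nt.LimitForm

/-! ### `L(E, s)` -/

/-- The number of points of the reduction modulo `p` of the projective plane curve
`y² + a₁xy + a₃y = x³ + a₂x² + a₄x + a₆`: affine solutions plus the point at infinity. -/
noncomputable def numPts (W : WeierstrassCurve ℤ) (p : ℕ) : ℕ :=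
  Nat.card {P : ZMod p × ZMod p // P.2 ^ 2 + (W.a₁ : ZMod p) * P.1 * P.2 + (W.a₃ : ZMod p) * P.2
    = P.1 ^ 3 + (W.a₂ : ZMod p) * P.1 ^ 2 + (W.a₄ : ZMod p) * P.1 + (W.a₆ : ZMod p)} + 1

/-- `a_p = p + 1 - N_p`. -/
noncomputable def ap (W : WeierstrassCurve ℤ) (p : ℕ) : ℤ := (p : ℤ) + 1 - (numPts W p : ℤ)

/-- The Euler factor (before inversion) at `p`: `1 - a_p p^(-s) + p^(1-2s)` if `p` does not divide
the discriminant, `1 - a_p p^(-s)` if it does. -/
noncomputable def eulerFactor (W : WeierstrassCurve ℤ) (p : ℕ) (s : ℂ) : ℂ :=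
  if (p : ℤ) ∣ W.Δ then 1 - (ap W p : ℂ) * (p : ℂ) ^ (-s)
  else 1 - (ap W p : ℂ) * (p : ℂ) ^ (-s) + (p : ℂ) ^ (1 - 2 * s)

/-- The Euler product `L(E, s)`. -/
noncomputable def LE (W : WeierstrassCurve ℤ) (s : ℂ) : ℂ :=
  ∏' p : Nat.Primes, (eulerFactor W p s)⁻¹

/-- `F` is an entire function equal to the Euler product of `W` for `Re s > 3/2`, and it vanishes
to order exactly `m` at `s = 1`. -/
def IsCont (W : WeierstrassCurve ℤ) (F : ℂ → ℂ) (m : ℕ) : Prop :=
  Differentiable ℂ F ∧ (∀ s : ℂ, 3 / 2 < s.re → F s = LE W s) ∧ analyticOrderAt F 1 = m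

/-- The curve `y² = x³ - k x`. -/
def quar (k : ℤ) : WeierstrassCurve ℤ := ⟨0, 0, 0, -k, 0⟩

/-- The curve `y² = x³ + k`. -/
def sext (k : ℤ) : WeierstrassCurve ℤ := ⟨0, 0, 0, 0, k⟩

/-- The curve `y² = x³ + a x² + b x`. -/
def two (a b : ℤ) : WeierstrassCurve ℤ := ⟨0, a, 0, b, 0⟩

/-! ### The product over the prime powers -/

/-- `α ^ k + β ^ k`, where `(X - α) (X - β) = X ^ 2 - a_p X + p`: the trace of the `k`-th power of a
matrix with this characteristic polynomial. -/
noncomputable def powSum (W : WeierstrassCurve ℤ) (p k : ℕ) : ℤ :=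
  ((!![ap W p, -(p : ℤ); 1, 0] : Matrix (Fin 2) (Fin 2) ℤ) ^ k).trace

/-- `α ^ k + β ^ k` at a prime `p` not dividing the discriminant, `a_p ^ k` at a prime dividing
it. -/
noncomputable def frobSum (W : WeierstrassCurve ℤ) (p k : ℕ) : ℤ :=
  if (p : ℤ) ∣ W.Δ then (ap W p) ^ k else powSum W p k

/-- The coefficient `(α ^ k + β ^ k) / (k p ^ k)` at `n = p ^ k`, and `0` if `n` is not a prime
power. -/
noncomputable def lam (W : WeierstrassCurve ℤ) (n : ℕ) : ℝ :=
  if IsPrimePow n then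
    (frobSum W n.minFac (n.factorization n.minFac) : ℝ) / ((n.factorization n.minFac : ℝ) * n)
  else 0

/-- `e ^ (i θ) / τ`. -/
noncomputable def zt (θ τ : ℝ) : ℂ := Complex.exp (Complex.I * θ) / τ

/-- `P(t) = exp (- ∑ (α ^ k + β ^ k) / (k p ^ k) / Γ (1 + e ^ (i / √t) log (p ^ k) / t))`, the sum over
the prime powers `p ^ k`. -/
noncomputable def primeSide (W : WeierstrassCurve ℤ) (t : ℝ) : ℂ :=
  Complex.exp (-∑' n : ℕ, (lam W n : ℂ) * (Complex.Gamma (1 + zt (1 / √t) t * Real.log n))⁻¹)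

/-! ### Points and heights -/

/-- The group `E(ℚ)` of rational points of the curve. -/
abbrev EQ (W : WeierstrassCurve ℤ) : Type := (W.map (Int.castRingHom ℚ)).toAffine.Point

/-- The height `h(x(P)) = log max (|a|, |b|)` with `x(P) = a / b` in lowest terms; it is `0` at the
point at infinity. -/
noncomputable def nht {W : WeierstrassCurve ℤ} : EQ W → ℝ
  | .zero => 0
  | .some x _ _ => Real.log (max (x.num.natAbs : ℝ) (x.den : ℝ))

section

variable {G : Type} [AddCommGroup G]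

/-- The limit of `h (2 ^ n • P) / 4 ^ n`. -/
noncomputable def cht (h : G → ℝ) (P : G) : ℝ :=
  limUnder atTop (fun n : ℕ => h ((2 ^ n : ℕ) • P) / 4 ^ n)

/-- The pairing `⟨P, Q⟩` with `⟨P, P⟩ = cht h P`. -/
noncomputable def prg (h : G → ℝ) (P Q : G) : ℝ := (cht h (P + Q) - cht h P - cht h Q) / 2

/-- The matrix of the numbers `⟨P i, P j⟩`. -/
noncomputable def gmat (h : G → ℝ) {r : ℕ} (P : Fin r → G) : Matrix (Fin r) (Fin r) ℝ :=
  Matrix.of fun i j => prg h (P i) (P j)

/-- `P 0, ..., P (r - 1)` is a basis of the group modulo torsion. -/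
def IsMWBasis {r : ℕ} (P : Fin r → G) : Prop :=
  LinearIndependent ℤ P ∧ ∀ Q : G, ∃ n : Fin r → ℤ, IsOfFinAddOrder (Q - ∑ i, n i • P i)

/-- The number of elements of finite order. -/
noncomputable def tors (G : Type) [AddCommGroup G] : ℕ := Nat.card {P : G // IsOfFinAddOrder P}

/-- The quotient of a group by its multiples of `n`. -/
abbrev modN (B : Type) [AddCommGroup B] (n : ℕ) : Type := B ⧸ (nsmulAddMonoidHom (α := B) n).range

end

/-- The constant `g = ∫_0^∞ (e ^ (-y) - 1 / Γ (1 + y)) dy / y`. -/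
noncomputable def kap : ℝ :=
  ∫ y in Set.Ioi (0 : ℝ), (Real.exp (-y) - (Real.Gamma (1 + y))⁻¹) / y

/-- `T(t) = ∑ exp (- π e ^ g ⟨Q, Q⟩ / t)`, the sum over the points `Q` of `E(ℚ)`. -/
noncomputable def pointSide (W : WeierstrassCurve ℤ) (t : ℝ) : ℝ :=
  ∑' Q : EQ W, Real.exp (-(Real.pi * cht nht Q / (Real.exp (-kap) * t)))

/-! ### The Selmer groups and the group of Tate and Shafarevich -/

section

variable {A M : Type} [AddCommGroup A] [AddCommGroup M]

/-- The subgroup `Z` modulo the image of `d`. -/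
abbrev Coh (d : A →+ M) (Z : AddSubgroup M) : Type := Z ⧸ (d.range.addSubgroupOf Z)

/-- `ξ` is in `Z` and `n ξ = d P`. -/
def IsPair (d : A →+ M) (Z : AddSubgroup M) (n : ℕ) (ξ : M) (P : A) : Prop := ξ ∈ Z ∧ n • ξ = d P

theorem IsPair.zero (d : A →+ M) (Z : AddSubgroup M) (n : ℕ) : IsPair d Z n 0 0 :=
  (Pool.Agent.Helper4.SB.pairs d Z n).zero_mem

theorem IsPair.add {d : A →+ M} {Z : AddSubgroup M} {n : ℕ} {ξ η : M} {P Q : A}
    (h : IsPair d Z n ξ P) (h' : IsPair d Z n η Q) : IsPair d Z n (ξ + η) (P + Q) :=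
  (Pool.Agent.Helper4.SB.pairs d Z n).add_mem (x := (ξ, P)) (y := (η, Q)) h h'

theorem IsPair.neg {d : A →+ M} {Z : AddSubgroup M} {n : ℕ} {ξ : M} {P : A}
    (h : IsPair d Z n ξ P) : IsPair d Z n (-ξ) (-P) :=
  (Pool.Agent.Helper4.SB.pairs d Z n).neg_mem (x := (ξ, P)) h

/-- The group of the pairs `(ξ, P)` with `ξ` in `Z` and `n ξ = d P`. -/
def pairs (d : A →+ M) (Z : AddSubgroup M) (n : ℕ) : AddSubgroup (M × A) where
  carrier := {x | IsPair d Z n x.1 x.2}
  zero_mem' := IsPair.zero d Z n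
  add_mem' := IsPair.add
  neg_mem' := IsPair.neg

/-- The pairs `(ξ, P)` with `ξ` in `Z` and `n ξ = d P`, modulo the pairs `(d Q, n Q)`. -/
abbrev PairCoh (d : A →+ M) (Z : AddSubgroup M) (n : ℕ) : Type :=
  pairs d Z n ⧸ ((d.prod (nsmulAddMonoidHom n)).range.addSubgroupOf (pairs d Z n))

end

section

open scoped Classical

/-- The points of the curve over the field `K`. -/
def Pt (W : WeierstrassCurve ℤ) (K : Type) [Field K] : Type :=
  (W.map (Int.castRingHom K)).toAffine.Point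

/-- The group of points of the curve over the field `K`. -/
noncomputable instance Pt.group (W : WeierstrassCurve ℤ) (K : Type) [Field K] :
    AddCommGroup (Pt W K) :=
  WeierstrassCurve.Affine.Point.instAddCommGroup (W := (W.map (Int.castRingHom K)).toAffine)

/-- The homomorphism between groups of points given by a homomorphism of fields. -/
noncomputable def pmap {W : WeierstrassCurve ℤ} {K L : Type} [Field K] [Field L] (f : K →+* L) :
    Pt W K →+ Pt W L :=
  WeierstrassCurve.Affine.Point.map (R := ℤ) (S := ℤ) (W' := W) f.toIntAlgHom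

section

variable {W : WeierstrassCurve ℤ} {k Ω : Type} [Field k] [Field Ω] [Algebra k Ω]

/-- A continuous cocycle of the group of automorphisms of `Ω` over `k` with values in the points
over `Ω`. -/
def IsCocycle (ξ : (Ω ≃ₐ[k] Ω) → Pt W Ω) : Prop :=
  (∀ s t, ξ (s * t) = ξ s + pmap (s : Ω →+* Ω) (ξ t)) ∧
    ∃ L : IntermediateField k Ω, FiniteDimensional k L ∧ ∀ s ∈ L.fixingSubgroup, ξ s = 0

/-- The cocycle becomes trivial over `K`: for every embedding `ι` of `Ω` in the algebraic closure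
`Kb` of `K` there is a point `P` over `Kb` such that the value at (the restriction `t` of) each
automorphism `s` of `Kb` over `K` is `s P - P`. -/
def LocTriv (K Kb : Type) [Field K] [Field Kb] [Algebra K Kb] (ξ : (Ω ≃ₐ[k] Ω) → Pt W Ω) : Prop :=
  ∀ ι : Ω →+* Kb, ∃ P : Pt W Kb, ∀ (s : Kb ≃ₐ[K] Kb) (t : Ω ≃ₐ[k] Ω), (∀ z, s (ι z) = ι (t z)) →
    pmap ι (ξ t) = pmap (s : Kb →+* Kb) P - P

/-- The coboundary `s ↦ s P - P` of a point `P`. -/
noncomputable def dsub (P : Pt W Ω) (s : Ω ≃ₐ[k] Ω) : Pt W Ω := pmap (s : Ω →+* Ω) P - P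

end

/-- An algebraic closure of the rational numbers. -/
abbrev Qbar : Type := AlgebraicClosure ℚ

/-- Its group of automorphisms. -/
abbrev GQ : Type := Qbar ≃ₐ[ℚ] Qbar

variable {W : WeierstrassCurve ℤ}

theorem dsub_add (P Q : Pt W Qbar) : (dsub (P + Q) : GQ → Pt W Qbar) = dsub P + dsub Q :=
  (Pool.Agent.Helper4.SB.cob W).map_add P Q

/-- The homomorphism `P ↦ (s ↦ s P - P)`. -/
noncomputable def cob (W : WeierstrassCurve ℤ) : Pt W Qbar →+ (GQ → Pt W Qbar) :=
  AddMonoidHom.mk' dsub dsub_add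

/-- A continuous cocycle which is trivial at all places of the rational numbers. -/
def IsLocCocycle (ξ : GQ → Pt W Qbar) : Prop :=
  IsCocycle ξ ∧ LocTriv ℝ ℂ ξ ∧ ∀ (p : ℕ) [Fact p.Prime], LocTriv ℚ_[p] (AlgebraicClosure ℚ_[p]) ξ

theorem IsLocCocycle.zero (W : WeierstrassCurve ℤ) : IsLocCocycle (0 : GQ → Pt W Qbar) :=
  (Pool.Agent.Helper4.SB.locCocycles W).zero_mem

theorem IsLocCocycle.add {ξ η : GQ → Pt W Qbar} (h : IsLocCocycle ξ) (h' : IsLocCocycle η) :
    IsLocCocycle (ξ + η) :=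
  (Pool.Agent.Helper4.SB.locCocycles W).add_mem h h'

theorem IsLocCocycle.neg {ξ : GQ → Pt W Qbar} (h : IsLocCocycle ξ) : IsLocCocycle (-ξ) :=
  (Pool.Agent.Helper4.SB.locCocycles W).neg_mem h

/-- The group of the continuous cocycles which are trivial at all places. -/
def locCocycles (W : WeierstrassCurve ℤ) : AddSubgroup (GQ → Pt W Qbar) where
  carrier := {ξ | IsLocCocycle ξ}
  zero_mem' := IsLocCocycle.zero W
  add_mem' := IsLocCocycle.add
  neg_mem' := IsLocCocycle.neg

/-- The group of Tate and Shafarevich: the kernel of the map from `H¹(ℚ, E)` to the product of the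
groups `H¹(ℚ_v, E)` over all places, as the locally trivial cocycles modulo coboundaries. -/
abbrev TS (W : WeierstrassCurve ℤ) : Type := Coh (cob W) (locCocycles W)

/-- The `n`-Selmer group: the pairs `(ξ, P)` of a locally trivial cocycle `ξ` and a point `P` over
`Qbar` with `n ξ(s) = s P - P`, modulo the pairs `(s ↦ s Q - Q, n Q)`. -/
abbrev Sel (W : WeierstrassCurve ℤ) (n : ℕ) : Type := PairCoh (cob W) (locCocycles W) n

/-! ### The Tamagawa numbers, the period, the strong conjecture -/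

/-- The reduction modulo `p` of the point is a nonsingular point of the reduced curve. -/
def NonsingRed (W : WeierstrassCurve ℤ) (p : ℕ) [Fact p.Prime] :
    (W.map (Int.castRingHom ℚ_[p])).toAffine.Point → Prop
  | .zero => True
  | .some x y _ => ¬ (‖x‖ ≤ 1 ∧ ‖2 * y + W.a₁ * x + W.a₃‖ < 1 ∧
      ‖W.a₁ * y - (3 * x ^ 2 + 2 * W.a₂ * x + W.a₄)‖ < 1)

/-- The index in `E(ℚ_p)` of the subgroup generated by the points with nonsingular reduction. -/
noncomputable def cTam (W : WeierstrassCurve ℤ) (p : ℕ) : ℕ :=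
  if hp : p.Prime then
    letI : Fact p.Prime := ⟨hp⟩
    (AddSubgroup.closure {P : Pt W ℚ_[p] | NonsingRed W p P}).index
  else 1

/-- The product of the Tamagawa numbers. -/
noncomputable def tamProd (W : WeierstrassCurve ℤ) : ℕ := ∏ p ∈ W.Δ.natAbs.primeFactors, cTam W p

/-- The period: the integral of `|dx / (2 y + a₁ x + a₃)|` over `E(ℝ)`, that is, twice the integral
of `1 / √(4 x ^ 3 + b₂ x ^ 2 + 2 b₄ x + b₆)` over the `x` where this is positive. -/
noncomputable def period (W : WeierstrassCurve ℤ) : ℝ :=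
  2 * ∫ x in {x : ℝ | 0 < 4 * x ^ 3 + W.b₂ * x ^ 2 + 2 * W.b₄ * x + W.b₆},
    1 / Real.sqrt (4 * x ^ 3 + W.b₂ * x ^ 2 + 2 * W.b₄ * x + W.b₆)

/-- The strong conjecture of Birch and Swinnerton-Dyer, (i), (ii) and (iii), for a curve given by a
Weierstrass equation (a global minimal one in the conjecture) and an entire function `F`
with a zero of order `m` at `1`. -/
def StrongBSD (W : WeierstrassCurve ℤ) (F : ℂ → ℂ) (m : ℕ) : Prop :=
  Finite (TS W) ∧ ∃ P : Fin m → EQ W, IsMWBasis P ∧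
    iteratedDeriv m F 1 / (m.factorial : ℂ) =
      ((period W * (gmat nht P).det * Nat.card (TS W) * tamProd W / (tors (EQ W) : ℝ) ^ 2 : ℝ) : ℂ)

/-- `#Sel_{n!} / #(E(ℚ) / n! E(ℚ)) · P(n) / T(n) ^ 2`. -/
noncomputable def ratio (W : WeierstrassCurve ℤ) (n : ℕ) : ℂ :=
  (Nat.card (Sel W n.factorial) : ℂ) / (Nat.card (modN (EQ W) n.factorial) : ℂ) *
    primeSide W n / (pointSide W n : ℂ) ^ 2

end

/-- The three parts of the conjecture of Birch and Swinnerton-Dyer as limits. -/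
theorem result :
    (∀ (W : WeierstrassCurve ℤ) (F : ℂ → ℂ) (m : ℕ), W.Δ ≠ 0 → IsCont W F m →
      ((∃ z : ℂ, z ≠ 0 ∧
          Tendsto (fun t : ℝ => primeSide W t / (pointSide W t : ℂ) ^ 2) atTop (𝓝 z)) ↔
        Module.rank ℤ (EQ W) = m) ∧
      ((∃ z : ℂ, z ≠ 0 ∧ Tendsto (ratio W) atTop (𝓝 z)) ↔
        Module.rank ℤ (EQ W) = m ∧ Finite (TS W)) ∧
      (Tendsto (fun n => ((period W * tamProd W : ℝ) : ℂ) * ratio W n) atTop (𝓝 1) ↔
        StrongBSD W F m)) ∧
    ∀ k : ℤ, k ≠ 0 → ∀ W : WeierstrassCurve ℤ,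
      (W = quar k ∨ W = sext k ∨ W = two (6 * k) (k ^ 2) ∨ W = two (6 * k) (-3 * k ^ 2)) →
      W.Δ ≠ 0 ∧ ∃ (F : ℂ → ℂ) (m : ℕ), IsCont W F m :=
  Pool.Agent.Helper66.LF.main

end Pool.Agent.Results.MP_4a9ea6_nt.LimitForm
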