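import Pool.Agent.Helper4.MS.Crisp

set_option autoImplicit false

namespace Pool.Agent.Results.MP_4a9ea6_nt.MestreSieve

open Pool.Agent.Helper4.MS
open scoped Classical

/-- Let `P(n)` be the product of `N_p / p` over the primes `p ≤ n` not dividing the discriminant.

* Mestre's sieve works: for `1 / 2 < t < 3 / 2` the curves `y² = x³ + a x + b`, `|a| ≤ A`,
  `|b| ≤ B`, with `P(n) ≥ (log n) ^ t` are only a proportion
  `(log n) ^ (-(t - 1 / 2) ^ 2 / 2 + o(1))` of these curves, but have 100 per cent of their integral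
  points `(x, y)`, `|x| ≤ X`, `|y| ≤ Y`.
* For `k ≤ 6`, 100 per cent of the cubics
  `c₀ y² + c₁ x y + c₂ y = c₃ x³ + c₄ x² + c₅ x + c₆` through `k` integral points have
  `P(n) = (log n) ^ (k + 1 / 2 + o(1))`, for all `n` up to `H ^ (1 / 8)` at the same time, if the
  parameters are in a box with the sides `s i j ≥ H`, and the `k` points are independent. -/
theorem result :
    (∀ t ε : ℝ, 1 / 2 < t → t < 3 / 2 → 0 < ε → ∃ N : ℕ, ∀ n : ℕ, N ≤ n → ∀ A B X Y : ℕ,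
      (n : ℝ) ^ (Real.log (Real.log n) ^ 2) ≤ A → (n : ℝ) ^ (Real.log (Real.log n) ^ 2) ≤ X →
      (n : ℝ) ^ (Real.log (Real.log n) ^ 2) ≤ Y → X ^ 3 + A * X + Y ^ 2 ≤ B →
      ∀ C S : Finset (ℤ × ℤ), C = Finset.Icc (-(A : ℤ)) A ×ˢ Finset.Icc (-(B : ℤ)) B →
      S = C.filter (fun c => (Real.log n) ^ t ≤ bsdProd ⟨0, 0, 0, c.1, c.2⟩ n) →
      (S.card : ℝ) ≤ (Real.log n) ^ (ε - (t - 1 / 2) ^ 2 / 2) * C.card ∧
      (1 - ε) * (∑ c ∈ C, intPts c.1 c.2 X Y : ℕ) ≤ (∑ c ∈ S, intPts c.1 c.2 X Y : ℕ)) ∧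
    (∀ (k : ℕ) (hk : k ≤ 6) (ε : ℝ), 0 < ε → ∃ N : ℕ, ∀ H : ℕ, N ≤ H →
      ∀ s : Fin 6 → Fin 7 → ℕ, (∀ i j, H ≤ s i j) →
      (1 - ε) * (box s).card ≤ (((box s).filter fun w => Indep k hk w ∧
        ∀ n : ℕ, N ≤ n → n ^ 8 ≤ H →
          (Real.log n) ^ (k + 1 / 2 - ε : ℝ) ≤ bsdProd (cubic k w) n ∧
          bsdProd (cubic k w) n ≤ (Real.log n) ^ (k + 1 / 2 + ε : ℝ)).card : ℝ)) :=
  ⟨fun t ε ht ht' hε => sieve t ε ht ht' hε, fun k hk ε hε => cubic_law k hk ε hε⟩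

end Pool.Agent.Results.MP_4a9ea6_nt.MestreSieve
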