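import Pool.Agent.Helper10.UP.Crisp

set_option autoImplicit false

/-!
The product form of the conjecture of Birch and Swinnerton-Dyer on the rank, without the Riemann
hypothesis: crisp form.
-/

namespace Pool.Agent.Results.MP_4a9ea6_nt.ProductCriterion

open Filter Topology MeasureTheory Set

/-- The number of points of the reduction modulo `p` of the projective plane curve
`y² + a₁xy + a₃y = x³ + a₂x² + a₄x + a₆`: affine solutions plus the point at infinity. -/
noncomputable def numPts (W : WeierstrassCurve ℤ) (p : ℕ) : ℕ :=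
  Nat.card {P : ZMod p × ZMod p // P.2 ^ 2 + (W.a₁ : ZMod p) * P.1 * P.2 + (W.a₃ : ZMod p) * P.2
    = P.1 ^ 3 + (W.a₂ : ZMod p) * P.1 ^ 2 + (W.a₄ : ZMod p) * P.1 + (W.a₆ : ZMod p)} + 1

/-- `a_p = p + 1 - N_p`. -/
noncomputable def ap (W : WeierstrassCurve ℤ) (p : ℕ) : ℤ := (p : ℤ) + 1 - (numPts W p : ℤ)

/-- The Euler factor (before inversion) at `p`: `1 - a_p p^(-s) + p^(1-2s)` if `p` does not divide
the discriminant, `1 - a_p p^(-s)` if it does. -/
noncomputable def eulerFactor (W : WeierstrassCurve ℤ) (p : ℕ) (s : ℂ) : ℂ :=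
  if (p : ℤ) ∣ W.Δ then 1 - (ap W p : ℂ) * (p : ℂ) ^ (-s)
  else 1 - (ap W p : ℂ) * (p : ℂ) ^ (-s) + (p : ℂ) ^ (1 - 2 * s)

/-- The Euler product `L(E, s)`. -/
noncomputable def LE (W : WeierstrassCurve ℤ) (s : ℂ) : ℂ :=
  ∏' p : Nat.Primes, (eulerFactor W p s)⁻¹

/-- `F` is an entire function equal to the Euler product of `W` for `Re s > 3/2`, and it vanishes
to order exactly `m` at `s = 1`. -/
def IsCont (W : WeierstrassCurve ℤ) (F : ℂ → ℂ) (m : ℕ) : Prop :=
  Differentiable ℂ F ∧ (∀ s : ℂ, 3 / 2 < s.re → F s = LE W s) ∧ analyticOrderAt F 1 = m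

/-- The group of rational points of the curve. -/
abbrev EQ (W : WeierstrassCurve ℤ) : Type := (W.map (Int.castRingHom ℚ)).toAffine.Point

/-- The weight `Re (1 / Γ (1 + e ^ (i / √t) log p / t))` with `t = (log log x) / 2`. -/
noncomputable def wt (x p : ℕ) : ℝ :=
  ((Complex.Gamma (1 + Complex.exp (Complex.I * ((√(Real.log (Real.log x) / 2))⁻¹ : ℝ))
    / (Real.log (Real.log x) / 2 : ℝ) * (Real.log p : ℝ)))⁻¹).re

/-- The product of `(N_p / p) ^ (wt x p)` over the primes `p ≤ x` not dividing the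
discriminant. -/
noncomputable def wprod (W : WeierstrassCurve ℤ) (x : ℕ) : ℝ :=
  ∏ p ∈ (Finset.Icc 1 x).filter (fun p : ℕ => p.Prime ∧ ¬ (p : ℤ) ∣ W.Δ),
    ((numPts W p : ℝ) / p) ^ wt x p

/-- The constant `∫_0^∞ (e ^ (-y) - 1 / Γ (1 + y)) dy / y`. -/
noncomputable def kap : ℝ := ∫ y in Ioi (0 : ℝ), (Real.exp (-y) - (Real.Gamma (1 + y))⁻¹) / y

/-- The product of `1 - a_p / p` over the primes dividing the discriminant. -/
noncomputable def badProd (W : WeierstrassCurve ℤ) : ℝ :=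
  ∏ p ∈ W.Δ.natAbs.primeFactors, (1 - (ap W p : ℝ) / p)

/-- The sum of `(a_p / p) ^ 2` over the good primes in `(√x, x]` is `log 2 + O(1 / log x)`. -/
def SqWin (W : WeierstrassCurve ℤ) : Prop :=
  ∃ C : ℝ, ∀ x : ℕ, 2 ≤ x →
    |∑ p ∈ (Finset.Icc 1 x).filter (fun p : ℕ => p.Prime ∧ ¬ (p : ℤ) ∣ W.Δ ∧ x < p ^ 2),
      ((ap W p : ℝ) / p) ^ 2 - Real.log 2| ≤ C / Real.log x

/-- The curve `y² = x³ - k x`. -/
def quar (k : ℤ) : WeierstrassCurve ℤ := ⟨0, 0, 0, -k, 0⟩

/-- The curve `y² = x³ + k`. -/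
def sext (k : ℤ) : WeierstrassCurve ℤ := ⟨0, 0, 0, 0, k⟩

/-- The curve `y² = x³ + a x² + b x`. -/
def two (a b : ℤ) : WeierstrassCurve ℤ := ⟨0, a, 0, b, 0⟩

/-- Let `W` be an integral Weierstrass equation with nonzero discriminant, let `F` be entire and
equal to the Euler product `LE W` for `Re s > 3/2`, let `m` be its order of vanishing at `s = 1`,
and let `SqWin W` hold (this and the existence of `F` are known for all elliptic curves over the
rationals).

(1) The rank of the group of rational points is `m` exactly if the product of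
`(N_p / p) ^ (wt x p)` over the good primes `p ≤ x` is asymptotic to a nonzero constant times the
power of `log log x` whose exponent is the rank.

(2) For real `k` and `C ≠ 0` the product is asymptotic to `C (log log x) ^ k` exactly if `k = m`
and `C = √2 e ^ (- kap m) / (2 ^ m A badProd)`, where `A = |F⁽ᵐ⁾(1) / m!|`.

(3) For every `j ≠ 0` the curves `y² = x³ - j x`, `y² = x³ + j`, `y² = x³ + 6 j x² + j² x` and
`y² = x³ + 6 j x² - 3 j² x` satisfy the hypotheses. -/
theorem result :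
    (∀ W : WeierstrassCurve ℤ, W.Δ ≠ 0 → SqWin W → ∀ (F : ℂ → ℂ) (m : ℕ), IsCont W F m →
      (Module.rank ℤ (EQ W) = m ↔ ∃ (r : ℕ) (C : ℝ), Module.rank ℤ (EQ W) = r ∧ C ≠ 0 ∧
        Tendsto (fun x : ℕ => wprod W x / (Real.log (Real.log x)) ^ r) atTop (𝓝 C)) ∧
      ∀ k C : ℝ, C ≠ 0 →
        (Tendsto (fun x : ℕ => wprod W x / (Real.log (Real.log x)) ^ k) atTop (𝓝 C) ↔
          k = m ∧ C = √2 * Real.exp (-(kap * m)) /
            (2 ^ m * ‖iteratedDeriv m F 1 / (m.factorial : ℂ)‖ * badProd W))) ∧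
    (∀ j : ℤ, j ≠ 0 → ∀ W : WeierstrassCurve ℤ,
      W = quar j ∨ W = sext j ∨ W = two (6 * j) (j ^ 2) ∨ W = two (6 * j) (-3 * j ^ 2) →
      W.Δ ≠ 0 ∧ SqWin W ∧ ∃ (F : ℂ → ℂ) (m : ℕ), IsCont W F m) :=
  Pool.Agent.Helper10.UP.Crisp.result

end Pool.Agent.Results.MP_4a9ea6_nt.ProductCriterion
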