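import Pool.Agent.Helper56.OS.Main

/-!
# One-sided forms of the product law of Birch and Swinnerton-Dyer

Birch and Swinnerton-Dyer expect that the product `P(x)` of `N_p / p` over the good primes `p ≤ x`
is asymptotic to `K (log x) ^ m`. Let `E` be an elliptic curve with entire `L(E, s)` and (S): the
sum of `(a_p / p) ^ 2` over the good primes in `(√x, x]` is `log 2 + O(1 / log x)`; both are known
for all elliptic curves over the rationals, and proved here for four families of curves with complex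
multiplication. Let `m` be the order and `a` the leading coefficient of `L(E, s)` at `s = 1`, and
`K = √2 e ^ (γ m) / (|a| B)`, where `B` is the product of `1 - a_p / p` over the bad primes.

* The law is never violated from below: `limsup P(x) / (log x) ^ m ≥ K`, without the Riemann
  hypothesis.
* If the law is not violated from above, it is true outside a set of integers of density zero.
* A bound `P(x) ≤ C (log x) ^ k` for all large `x`, with any real `C` and `k`, implies `m ≤ k` and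
  the Riemann hypothesis for `L(E, s)`.
-/

set_option autoImplicit false

namespace Pool.Agent.Results.MP_4a9ea6_nt.ProductOneSided

open Filter Topology

/-- The number of points of the reduction modulo `p` of the projective plane curve
`y² + a₁xy + a₃y = x³ + a₂x² + a₄x + a₆`: affine solutions plus the point at infinity. -/
noncomputable def numPts (W : WeierstrassCurve ℤ) (p : ℕ) : ℕ :=
  Nat.card {P : ZMod p × ZMod p // P.2 ^ 2 + (W.a₁ : ZMod p) * P.1 * P.2 + (W.a₃ : ZMod p) * P.2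
    = P.1 ^ 3 + (W.a₂ : ZMod p) * P.1 ^ 2 + (W.a₄ : ZMod p) * P.1 + (W.a₆ : ZMod p)} + 1

/-- `a_p = p + 1 - N_p`. -/
noncomputable def ap (W : WeierstrassCurve ℤ) (p : ℕ) : ℤ := (p : ℤ) + 1 - (numPts W p : ℤ)

/-- The Euler factor (before inversion) at `p`: `1 - a_p p^(-s) + p^(1-2s)` if `p` does not divide
the discriminant, `1 - a_p p^(-s)` if it does. -/
noncomputable def eulerFactor (W : WeierstrassCurve ℤ) (p : ℕ) (s : ℂ) : ℂ :=
  if (p : ℤ) ∣ W.Δ then 1 - (ap W p : ℂ) * (p : ℂ) ^ (-s)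
  else 1 - (ap W p : ℂ) * (p : ℂ) ^ (-s) + (p : ℂ) ^ (1 - 2 * s)

/-- The Euler product `L(E, s)`. -/
noncomputable def LE (W : WeierstrassCurve ℤ) (s : ℂ) : ℂ :=
  ∏' p : Nat.Primes, (eulerFactor W p s)⁻¹

/-- `F` is an entire function equal to the Euler product of `W` for `Re s > 3/2`, and it vanishes
to order exactly `m` at `s = 1`. -/
def IsCont (W : WeierstrassCurve ℤ) (F : ℂ → ℂ) (m : ℕ) : Prop :=
  Differentiable ℂ F ∧ (∀ s : ℂ, 3 / 2 < s.re → F s = LE W s) ∧ analyticOrderAt F 1 = m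

/-- The product of `N_p / p` over the primes `p ≤ x` not dividing the discriminant. -/
noncomputable def bsdProd (W : WeierstrassCurve ℤ) (x : ℕ) : ℝ :=
  ∏ p ∈ (Finset.Icc 1 x).filter (fun p : ℕ => p.Prime ∧ ¬ (p : ℤ) ∣ W.Δ), (numPts W p : ℝ) / p

/-- The product of `1 - a_p / p` over the primes dividing the discriminant. -/
noncomputable def badProd (W : WeierstrassCurve ℤ) : ℝ :=
  ∏ p ∈ W.Δ.natAbs.primeFactors, (1 - (ap W p : ℝ) / p)

/-- The sum of `(a_p / p) ^ 2` over the good primes in `(√x, x]` is `log 2 + O(1 / log x)`. -/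
def SqWin (W : WeierstrassCurve ℤ) : Prop :=
  ∃ C : ℝ, ∀ x : ℕ, 2 ≤ x →
    |∑ p ∈ (Finset.Icc 1 x).filter (fun p : ℕ => p.Prime ∧ ¬ (p : ℤ) ∣ W.Δ ∧ x < p ^ 2),
      ((ap W p : ℝ) / p) ^ 2 - Real.log 2| ≤ C / Real.log x

/-- The curve `y² = x³ - k x`. -/
def quar (k : ℤ) : WeierstrassCurve ℤ := ⟨0, 0, 0, -k, 0⟩

/-- The curve `y² = x³ + k`. -/
def sext (k : ℤ) : WeierstrassCurve ℤ := ⟨0, 0, 0, 0, k⟩

/-- The curve `y² = x³ + a x² + b x`. -/
def two (a b : ℤ) : WeierstrassCurve ℤ := ⟨0, a, 0, b, 0⟩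

/-- The one-sided forms of the product law for all elliptic curves with entire `L(E, s)` and
`SqWin`, and the existence of the continuation and `SqWin` for `y² = x³ - k x`, `y² = x³ + k`,
`y² = x³ + 6 k x² + k² x` and `y² = x³ + 6 k x² - 3 k² x`, `k ≠ 0` (up to isomorphism over the
rationals, all elliptic curves with `j = 1728, 0, 287496, 54000`). -/
theorem result :
    (∀ (W : WeierstrassCurve ℤ) (F : ℂ → ℂ) (m : ℕ), W.Δ ≠ 0 → SqWin W → IsCont W F m →
      ∀ K : ℝ, K = √2 * Real.exp (Real.eulerMascheroniConstant * m)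
          / (‖iteratedDeriv m F 1 / (m.factorial : ℂ)‖ * badProd W) →
      (∀ C < K, ∃ᶠ x : ℕ in atTop, C * (Real.log x) ^ m < bsdProd W x) ∧
      ((∀ C > K, ∀ᶠ x : ℕ in atTop, bsdProd W x ≤ C * (Real.log x) ^ m) →
        ∀ ε > 0, Tendsto (fun N : ℕ => (((Finset.Icc 1 N).filter fun x : ℕ =>
          ε < |bsdProd W x / (Real.log x) ^ m - K|).card : ℝ) / N) atTop (𝓝 0)) ∧
      ∀ C k : ℝ, (∀ᶠ x : ℕ in atTop, bsdProd W x ≤ C * (Real.log x) ^ k) →
        (m : ℝ) ≤ k ∧ ∀ s : ℂ, 1 < s.re → F s ≠ 0) ∧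
    ∀ k : ℤ, k ≠ 0 → ∀ W : WeierstrassCurve ℤ,
      W = quar k ∨ W = sext k ∨ W = two (6 * k) (k ^ 2) ∨ W = two (6 * k) (-3 * k ^ 2) →
      W.Δ ≠ 0 ∧ SqWin W ∧ ∃ (F : ℂ → ℂ) (m : ℕ), IsCont W F m :=
  Pool.Agent.Helper56.OS.main

end Pool.Agent.Results.MP_4a9ea6_nt.ProductOneSided
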